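import Pool.Agent.Q160.SK.Stm

/-!
# Commutator formulas in the ring of endomorphisms
-/

set_option autoImplicit false
set_option linter.unusedSectionVars false
set_option linter.unusedSimpArgs false

namespace Pool.Agent.Q178.SK

open Pool.Agent.Q160.SK

variable {S : Type} [Ring S] [Algebra ℚ S]

/-- if `x = a b - b a` commutes with `a`, then `a^(n+1) b = b a^(n+1) + (n+1) x a^n` -/
theorem pow_comm1 (a b x : S) (h : a * b = b * a + x) (hx : a * x = x * a)
    (n : ℕ) : a ^ (n + 1) * b = b * a ^ (n + 1) + (((n : ℕ) : ℚ) + 1) • (x * a ^ n) := by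
  induction n with
  | zero =>
    rw [zero_add, pow_one, h]
    simp
  | succ n ih =>
    have h2 : a * (x * a ^ n) = x * a ^ (n + 1) := by
      rw [← mul_assoc, hx, mul_assoc, ← pow_succ']
    have h3 : a * (b * a ^ (n + 1)) = b * a ^ (n + 1 + 1) + x * a ^ (n + 1) := by
      rw [← mul_assoc, h, add_mul, mul_assoc, ← pow_succ']
    rw [pow_succ' a (n + 1), mul_assoc, ih, mul_add, h3, mul_smul_comm, h2, ← pow_succ']
    push_cast
    module

theorem H_pow (E H : S) (hH : H * E = E * H + (2 : ℚ) • E) (n : ℕ) :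
    H * E ^ n = E ^ n * H + (2 * (n : ℚ)) • E ^ n := by
  induction n with
  | zero => simp
  | succ n ih =>
    rw [pow_succ, ← mul_assoc, ih, add_mul, mul_assoc, hH, mul_add, smul_mul_assoc,
      mul_smul_comm, ← mul_assoc, ← pow_succ]
    push_cast
    module

/-- `[E^(n+1), F] = (n+1) E^n (H + n)` -/
theorem pow_comm2 (E F H : S) (h : E * F = F * E + H)
    (hH : H * E = E * H + (2 : ℚ) • E) (n : ℕ) :
    E ^ (n + 1) * F = F * E ^ (n + 1) + ((n : ℚ) + 1) • (E ^ n * H)
      + (((n : ℚ) + 1) * n) • E ^ n := by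
  induction n with
  | zero =>
    rw [zero_add, pow_one, h]
    simp
  | succ n ih =>
    have h1 : E * (F * E ^ (n + 1)) = F * E ^ (n + 1 + 1) + E ^ (n + 1) * H
        + (2 * ((n : ℚ) + 1)) • E ^ (n + 1) := by
      rw [← mul_assoc, h, add_mul, H_pow E H hH, mul_assoc, ← pow_succ']
      push_cast
      module
    have h2 : E * (E ^ n * H) = E ^ (n + 1) * H := by rw [← mul_assoc, ← pow_succ']
    rw [pow_succ' E (n + 1), mul_assoc, ih, mul_add, mul_add, h1, mul_smul_comm, mul_smul_comm, h2,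
      ← pow_succ', ← pow_succ']
    push_cast
    module

/-- mirror image: `[F^(n+1), E] = -(n+1) F^n (H - n)` -/
theorem pow_comm3 (E F H : S) (h : E * F = F * E + H)
    (hF : H * F = F * H - (2 : ℚ) • F) (n : ℕ) :
    F ^ (n + 1) * E = E * F ^ (n + 1) - ((n : ℚ) + 1) • (F ^ n * H)
      + (((n : ℚ) + 1) * n) • F ^ n := by
  have h1 : F * E = E * F + (-H) := by rw [h]; abel
  have h2 : (-H) * F = F * (-H) + (2 : ℚ) • F := by
    rw [neg_mul, hF, mul_neg]; abel
  have h3 := pow_comm2 F E (-H) h1 h2 n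
  rw [h3, mul_neg, smul_neg]
  abel

end Pool.Agent.Q178.SK
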