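import Pool.Agent.Q178.SK.StrSym

/-!
# JOB DIM: the character of the induced module
-/

set_option autoImplicit false
set_option linter.unusedSectionVars false
set_option linter.unusedSimpArgs false

namespace Pool.Agent.Q178.SK

open Pool.Agent.Q160.SK

variable {A J C X : Type} [DecidableEq A] [Fintype A] [DecidableEq J] [DecidableEq C] [Fintype C]
  [AddCommGroup X] [Module ℚ X] {R : Dat A J} {O : Ops A J C X} {M : Submodule ℚ X}

theorem eq_single_of_dd (f : ℕ →₀ X) (h : (-dd : Module.End ℚ (ℕ →₀ X)) f = 0) :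
    f = Finsupp.single 0 (f 0) := by
  ext q
  rcases q with _ | q
  · simp
  · rw [Finsupp.single_eq_of_ne (by omega : q + 1 ≠ 0)]
    have h1 := DFunLike.congr_fun h q
    rw [LinearMap.neg_apply, Finsupp.neg_apply, dd_apply, Finsupp.zero_apply, neg_eq_zero,
      smul_eq_zero] at h1
    rcases h1 with h1 | h1
    · exfalso
      have : (0 : ℚ) < (q : ℚ) + 1 := by positivity
      exact this.ne' h1
    · exact h1

theorem e_coef0 (R : Dat A J) (O : Ops A J C X) (i : J) (f : ℕ →₀ X) :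
    (ind R O i).e i f 0 = O.e i (f 0) := by
  simp only [ind, if_true, LinearMap.add_apply, Finsupp.add_apply, Module.End.mul_apply,
    hat_apply, zz_apply_zero, add_zero]

theorem e_pow_coef0 (R : Dat A J) (O : Ops A J C X) (i : J) (n : ℕ) (f : ℕ →₀ X) :
    ((ind R O i).e i ^ n) f 0 = (O.e i ^ n) (f 0) := by
  induction n with
  | zero => simp
  | succ n ih => rw [pow_succ', Module.End.mul_apply, e_coef0, ih, pow_succ', Module.End.mul_apply]

theorem single0_mem_W (R : Dat A J) (O : Ops A J C X) (i : J) (μ : A → ℤ) (m : X) :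
    (Finsupp.single 0 m : ℕ →₀ X) ∈ (ind R O i).W μ ↔ m ∈ O.W μ := by
  constructor
  · intro h a
    have h1 := h a
    rw [h_single, Nat.cast_zero, mul_zero, zero_smul, add_zero, Finsupp.smul_single] at h1
    exact Finsupp.single_injective 0 h1
  · intro h a
    rw [h_single, Nat.cast_zero, mul_zero, zero_smul, add_zero, Finsupp.smul_single, h a]

theorem t_LOW : S_LOW := by
  intro A J C X _ _ _ _ _ _ _ R O M i hM p μ hμ f
  constructor
  · rintro ⟨⟨hf1, hf2⟩, hf3⟩
    have h1 := eq_single_of_dd f hf3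
    have h2 := t_STR A J C X R O M i hM μ
    have h3 : f ∈ indM R O i M ⊓ (ind R O i).W (μ + (0 : ℤ) • R.al i) := by
      rw [zero_smul, add_zero]
      exact ⟨hf1, hf2⟩
    have h4 := h2.low 0 p (by rw [mul_zero, add_zero]; exact hμ) f h3 hf3
    refine ⟨f 0, ⟨hf1.1 0, ?_⟩, ?_, h1⟩
    · have h5 : (Finsupp.single 0 (f 0) : ℕ →₀ X) ∈ (ind R O i).W μ := by
        rw [← h1]
        exact hf2
      exact (single0_mem_W R O i μ (f 0)).mp h5
    · rw [← e_pow_coef0 R O i, h4]
      rfl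
  · rintro ⟨m, ⟨hm1, hm2⟩, hm3, rfl⟩
    have hd : (-dd : Module.End ℚ (ℕ →₀ X)) (Finsupp.single 0 m) = 0 := by
      rw [LinearMap.neg_apply, dd_single]
      simp
    have hw : (Finsupp.single 0 m : ℕ →₀ X) ∈ (ind R O i).W μ := (single0_mem_W R O i μ m).mpr hm2
    have hH : ((ind R O i).h (R.tgt i) - (ind R O i).h (R.src i)) (Finsupp.single 0 m)
        = (-(p : ℚ)) • Finsupp.single 0 m := by
      rw [LinearMap.sub_apply, hw (R.tgt i), hw (R.src i), ← sub_smul]
      congr 1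
      rw [← Int.cast_sub, hμ]
      push_cast
      rfl
    have h1 := sl0 (sli_EF hM.rels i) (sli_HE hM.rels i) p _ hd hH
    have h2 := eq_single_of_dd _ h1
    rw [e_pow_coef0 R O i, Finsupp.single_eq_same, hm3, Finsupp.single_zero] at h2
    refine ⟨⟨⟨fun q => ?_, p + 1, h2⟩, hw⟩, hd⟩
    rcases q with _ | q
    · rw [Finsupp.single_eq_same]; exact hm1
    · rw [Finsupp.single_eq_of_ne (by omega : q + 1 ≠ 0)]
      exact M.zero_mem

theorem finrank_ker_range {Y : Type} [AddCommGroup Y] [Module ℚ Y] (T : Module.End ℚ Y)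
    (V1 V2 : Submodule ℚ Y) (hf : Module.Finite ℚ ↥V1) (h1 : ∀ x ∈ V1, T x ∈ V2)
    (h2 : ∀ y ∈ V2, ∃ x ∈ V1, T x = y) :
    Module.finrank ℚ ↥V1 = Module.finrank ℚ ↥V2
      + Module.finrank ℚ ↥(V1 ⊓ LinearMap.ker T) := by
  have h3 := LinearMap.finrank_range_add_finrank_ker (T.domRestrict V1)
  have h4 : LinearMap.range (T.domRestrict V1) = V2 := by
    ext y
    constructor
    · rintro ⟨x, rfl⟩
      exact h1 _ x.2
    · intro hy
      obtain ⟨x, hx, hx2⟩ := h2 y hy
      exact ⟨⟨x, hx⟩, hx2⟩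
  have h5 : (LinearMap.ker (T.domRestrict V1)).map V1.subtype = V1 ⊓ LinearMap.ker T := by
    ext y
    constructor
    · rintro ⟨x, hx, rfl⟩
      exact ⟨x.2, hx⟩
    · rintro ⟨hy1, hy2⟩
      exact ⟨⟨y, hy1⟩, hy2, rfl⟩
  have h6 := (Submodule.equivMapOfInjective V1.subtype V1.injective_subtype
    (LinearMap.ker (T.domRestrict V1))).finrank_eq
  rw [h5] at h6
  rw [h4] at h3
  rw [← h3, h6]

theorem dim_neg (hM : Good R O M) (i : J) (hV : Van R O i M 0)
    (hfin : ∀ μ, Module.Finite ℚ ↥(indM R O i M ⊓ (ind R O i).W μ)) (p : ℕ) (μ : A → ℤ)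
    (hμ : μ (R.tgt i) - μ (R.src i) = -(p : ℤ)) :
    (ind R O i).dm (indM R O i M) μ + O.dm M ((fun a => μ (R.sw i a)) + R.al i)
      = O.dm M μ + (ind R O i).dm (indM R O i M) (μ - R.al i) := by
  have hsw : (fun a => μ (R.sw i a)) + R.al i = μ + ((p : ℤ) + 1) • R.al i := by
    rw [← sw_eq, hμ, add_smul, one_smul, add_assoc, neg_neg]
  have hstr := t_STR A J C X R O M i hM μ
  have h1 : (ind R O i).dm (indM R O i M) μ = (ind R O i).dm (indM R O i M) (μ - R.al i)
      + Module.finrank ℚ ↥((indM R O i M ⊓ (ind R O i).W μ) ⊓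
        LinearMap.ker (-dd : Module.End ℚ (ℕ →₀ X))) := by
    refine finrank_ker_range (-dd) _ _ (hfin μ) ?_ ?_
    · rintro x ⟨hx1, hx2⟩
      exact ⟨sta_d hM i x hx1, d_mem_W hM.rels i μ x hx2⟩
    · intro y hy
      have h2 := hstr.surj1 0 (by rw [mul_zero, add_zero, hμ]; linarith [Nat.cast_nonneg (α := ℤ) p])
        y (by
          rw [zero_sub, neg_smul, one_smul, ← sub_eq_add_neg]
          exact hy)
      rw [zero_smul, add_zero] at h2
      exact h2
  have h2 : O.dm M μ = O.dm M (μ + ((p : ℤ) + 1) • R.al i)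
      + Module.finrank ℚ ↥((M ⊓ O.W μ) ⊓ LinearMap.ker (O.e i ^ (p + 1))) := by
    refine finrank_ker_range (O.e i ^ (p + 1)) _ _ (hM.fin μ) ?_ ?_
    · rintro x hx
      have hk : ∀ k : ℕ, (O.e i ^ k) x ∈ M ⊓ O.W (μ + (k : ℤ) • R.al i) := by
        intro k
        induction k with
        | zero => simpa using hx
        | succ k ih =>
          rw [pow_succ', Module.End.mul_apply]
          refine ⟨hM.est i _ ih.1, ?_⟩
          have h3 := e_mem_W hM.rels i _ _ ih.2
          rw [show μ + ((k + 1 : ℕ) : ℤ) • R.al i = μ + (k : ℤ) • R.al i + R.al i by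
            push_cast; rw [add_smul, one_smul, add_assoc]]
          exact h3
      have h4 := hk (p + 1)
      push_cast at h4
      exact h4
    · intro y hy
      obtain ⟨x, hx, hx2⟩ := hV p μ (by rw [hμ, zero_sub]) y hy
      exact ⟨x, hx, hx2⟩
  have h3 : ((M ⊓ O.W μ) ⊓ LinearMap.ker (O.e i ^ (p + 1))).map
      (Finsupp.lsingle 0 : X →ₗ[ℚ] (ℕ →₀ X))
      = (indM R O i M ⊓ (ind R O i).W μ) ⊓ LinearMap.ker (-dd : Module.End ℚ (ℕ →₀ X)) := by
    ext f
    have h4 := t_LOW A J C X R O M i hM p μ hμ f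
    constructor
    · rintro ⟨m, ⟨hm1, hm2⟩, rfl⟩
      exact h4.mpr ⟨m, hm1, hm2, rfl⟩
    · rintro hf
      obtain ⟨m, hm1, hm2, hm3⟩ := h4.mp hf
      exact ⟨m, ⟨hm1, hm2⟩, hm3.symm⟩
  have h5 := (Submodule.equivMapOfInjective (Finsupp.lsingle 0 : X →ₗ[ℚ] (ℕ →₀ X))
    (Finsupp.single_injective 0) ((M ⊓ O.W μ) ⊓ LinearMap.ker (O.e i ^ (p + 1)))).finrank_eq
  rw [h3] at h5
  rw [hsw, h1, h2, h5]
  ring

theorem t_DIM (h8 : S_FIN) : S_DIM := by
  intro A J C X _ _ _ _ _ _ _ R O M i hM hV μ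
  have hsym := (t_SYM h8 A J C X R O M i hM).1
  have hfin := (h8 A J C X R O M i hM).1
  have hsw := sw_eq R i μ
  rcases le_or_gt (μ (R.tgt i) - μ (R.src i)) 0 with h0 | h0
  · obtain ⟨p, hp⟩ : ∃ p : ℕ, μ (R.tgt i) - μ (R.src i) = -(p : ℤ) :=
      ⟨(-(μ (R.tgt i) - μ (R.src i))).toNat, by rw [Int.toNat_of_nonneg (by linarith)]; ring⟩
    have h1 := dim_neg hM i hV hfin p μ hp
    have h2 : (((ind R O i).dm (indM R O i M) μ + O.dm M ((fun a => μ (R.sw i a)) + R.al i) : ℕ) : ℤ)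
      = ((O.dm M μ + (ind R O i).dm (indM R O i M) (μ - R.al i) : ℕ) : ℤ) := by rw [h1]
    push_cast at h2
    linarith
  · rcases eq_or_lt_of_le (Int.add_one_le_iff.mpr h0) with h1 | h1
    · rw [zero_add] at h1
      rw [← h1, neg_smul, one_smul, ← sub_eq_add_neg] at hsw
      have h2 := hsym μ
      rw [← hsw] at h2
      rw [h2, ← hsw, sub_add_cancel]
      ring
    · have hsw2 : ∀ a, R.sw i (R.sw i a) = a := fun a => Equiv.swap_apply_self _ _ a
      have hal : ∀ a, R.al i (R.sw i a) = - R.al i a := by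
        intro a
        have h3 := congrFun (sw_eq R i (R.al i)) a
        rw [← h3, Pi.add_apply, Pi.smul_apply, al_tgt, al_src, smul_eq_mul]
        ring
      have hν : (((fun a => μ (R.sw i a)) + R.al i) (R.tgt i)
          - ((fun a => μ (R.sw i a)) + R.al i) (R.src i))
          = -(((μ (R.tgt i) - μ (R.src i) - 2).toNat : ℕ) : ℤ) := by
        rw [Int.toNat_of_nonneg (by linarith)]
        simp only [Pi.add_apply, al_tgt, al_src, Dat.sw, Equiv.swap_apply_left,
          Equiv.swap_apply_right]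
        ring
      have h3 := dim_neg hM i hV hfin _ _ hν
      have h4 : (fun a => ((fun a => μ (R.sw i a)) + R.al i) (R.sw i a)) = μ - R.al i := by
        funext a
        simp only [Pi.add_apply, Pi.sub_apply, hsw2, hal]
        ring
      have h5 := hsym ((fun a => μ (R.sw i a)) + R.al i)
      rw [h4] at h5
      rw [h4, sub_add_cancel, add_sub_cancel_right, hsym μ, ← h5] at h3
      have h6 : (((ind R O i).dm (indM R O i M) (μ - R.al i) + O.dm M μ : ℕ) : ℤ)
        = ((O.dm M ((fun a => μ (R.sw i a)) + R.al i) + (ind R O i).dm (indM R O i M) μ : ℕ) : ℤ) := by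
        rw [h3]
      push_cast at h6
      linarith

end Pool.Agent.Q178.SK
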