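import Pool.Agent.Q160.SK.Base

/-!
# The operators of `ind R O i` on the monomials `x z^q` (toolbox for JOBS REL, SLI, STA, ...)
-/

set_option autoImplicit false
set_option linter.unusedSectionVars false

namespace Pool.Agent.Q178.SK

open Pool.Agent.Q160.SK

section one

variable {X : Type} [AddCommGroup X] [Module ℚ X]

theorem hat_single (T : Module.End ℚ X) (q : ℕ) (x : X) :
    hat T (Finsupp.single q x) = Finsupp.single q (T x) := by
  simp [hat]

theorem zz_single (q : ℕ) (x : X) :
    (zz : Module.End ℚ (ℕ →₀ X)) (Finsupp.single q x) = Finsupp.single (q + 1) x := by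
  simp [zz, Finsupp.mapDomain_single]

theorem dd_single (q : ℕ) (x : X) :
    (dd : Module.End ℚ (ℕ →₀ X)) (Finsupp.single q x) = (q : ℚ) • Finsupp.single (q - 1) x := by
  simp [dd]

theorem zzdd_single (q : ℕ) (x : X) :
    (zz : Module.End ℚ (ℕ →₀ X)) ((dd : Module.End ℚ (ℕ →₀ X)) (Finsupp.single q x))
      = (q : ℚ) • Finsupp.single q x := by
  rw [dd_single, map_smul, zz_single]
  rcases q with _ | q
  · simp
  · simp

theorem hat_apply (T : Module.End ℚ X) (f : ℕ →₀ X) (q : ℕ) : hat T f q = T (f q) := by
  simp [hat]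

theorem zz_apply_zero (f : ℕ →₀ X) : (zz : Module.End ℚ (ℕ →₀ X)) f 0 = 0 := by
  induction f using Finsupp.induction_linear with
  | zero => simp
  | add f g hf hg => rw [map_add, Finsupp.add_apply, hf, hg, add_zero]
  | single q x => rw [zz_single]; simp

theorem zz_apply_succ (f : ℕ →₀ X) (q : ℕ) :
    (zz : Module.End ℚ (ℕ →₀ X)) f (q + 1) = f q := by
  induction f using Finsupp.induction_linear with
  | zero => simp
  | add f g hf hg => rw [LinearMap.map_add, Finsupp.add_apply, hf, hg, Finsupp.add_apply]
  | single p x =>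
    rw [zz_single, Finsupp.single_apply, Finsupp.single_apply]
    simp

theorem dd_apply (f : ℕ →₀ X) (q : ℕ) :
    (dd : Module.End ℚ (ℕ →₀ X)) f q = ((q : ℚ) + 1) • f (q + 1) := by
  induction f using Finsupp.induction_linear with
  | zero => simp
  | add f g hf hg => rw [map_add, Finsupp.add_apply, hf, hg, Finsupp.add_apply, smul_add]
  | single p x =>
    rw [dd_single]
    rcases p with _ | p
    · rw [Finsupp.single_eq_of_ne (by omega : q + 1 ≠ 0)]
      simp
    · by_cases hpq : p = q
      · subst hpq
        simp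
      · rw [Finsupp.single_eq_of_ne (by omega : q + 1 ≠ p + 1)]
        rw [Finsupp.smul_apply, Nat.add_sub_cancel, Finsupp.single_eq_of_ne (Ne.symm hpq)]
        simp

end one

section two

variable {A J C X : Type} [DecidableEq A] [Fintype A] [DecidableEq J] [DecidableEq C] [Fintype C]
  [AddCommGroup X] [Module ℚ X] (R : Dat A J) (O : Ops A J C X) (i : J)

theorem al_tgt (j : J) : R.al j (R.tgt j) = 1 := by
  have h := R.ne j
  simp only [Dat.al, if_true]
  rw [if_neg (Ne.symm h)]
  rfl

theorem al_src (j : J) : R.al j (R.src j) = -1 := by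
  have h := R.ne j
  simp only [Dat.al, if_true]
  rw [if_neg h]
  rfl

theorem al_of_ne (j : J) (a : A) (h1 : a ≠ R.tgt j) (h2 : a ≠ R.src j) : R.al j a = 0 := by
  simp only [Dat.al]
  rw [if_neg h1, if_neg h2]
  rfl

theorem car_comm (j k : J) : R.car j k = R.car k j := by
  simp only [Dat.car, Dat.al]
  have h1 : (R.tgt j = R.tgt k) = (R.tgt k = R.tgt j) := propext eq_comm
  have h2 : (R.tgt j = R.src k) = (R.src k = R.tgt j) := propext eq_comm
  have h3 : (R.src j = R.tgt k) = (R.tgt k = R.src j) := propext eq_comm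
  have h4 : (R.src j = R.src k) = (R.src k = R.src j) := propext eq_comm
  simp only [h1, h2, h3, h4]
  ring

/-- the Cartan numbers of different roots are `0` or `-1` -/
theorem car_cases (j k : J) (h : j ≠ k) : R.car j k = 0 ∨ R.car j k = -1 := by
  have h1 : R.tgt j ≠ R.tgt k := fun e => h (R.tgt_inj j k e)
  have h2 : R.src j ≠ R.src k := fun e => h (R.src_inj j k e)
  simp only [Dat.car, Dat.al]
  rw [if_neg h1, if_neg h2]
  by_cases h3 : R.tgt j = R.src k
  · have h4 : R.src j ≠ R.tgt k := fun e => R.nocyc j k e h3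
    rw [if_pos h3, if_neg h4]
    right; norm_num
  · rw [if_neg h3]
    by_cases h4 : R.src j = R.tgt k
    · rw [if_pos h4]
      right; norm_num
    · rw [if_neg h4]
      left; norm_num

theorem e_self_single (q : ℕ) (x : X) :
    (ind R O i).e i (Finsupp.single q x) = Finsupp.single q (O.e i x)
      + Finsupp.single (q + 1) ((O.h (R.tgt i) - O.h (R.src i)) x)
      + (q : ℚ) • Finsupp.single (q + 1) x := by
  simp only [ind, if_true, LinearMap.add_apply, Module.End.mul_apply, hat_single, zz_single,
    zzdd_single, map_smul]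

theorem e_ne_single (j : J) (h : j ≠ i) (q : ℕ) (x : X) :
    (ind R O i).e j (Finsupp.single q x) = Finsupp.single q (O.e j x) := by
  simp only [ind]
  rw [if_neg h, hat_single]

theorem h_single (a : A) (q : ℕ) (x : X) :
    (ind R O i).h a (Finsupp.single q x) = Finsupp.single q (O.h a x)
      + ((R.al i a : ℚ) * q) • Finsupp.single q x := by
  simp only [ind, LinearMap.add_apply, LinearMap.smul_apply, Module.End.mul_apply, hat_single,
    zzdd_single, smul_smul]

theorem Z_tgt_single (c : C) (q : ℕ) (x : X) :
    (ind R O i).Z (R.tgt i) c (Finsupp.single q x) = Finsupp.single q (O.Z (R.tgt i) c x)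
      - Finsupp.single (q + 1) (O.Z (R.src i) c x) := by
  simp only [ind, if_true, LinearMap.sub_apply, Module.End.mul_apply, hat_single, zz_single]

theorem Z_ne_single (a : A) (h : a ≠ R.tgt i) (c : C) (q : ℕ) (x : X) :
    (ind R O i).Z a c (Finsupp.single q x) = Finsupp.single q (O.Z a c x) := by
  simp only [ind]
  rw [if_neg h, sub_zero, hat_single]

end two

end Pool.Agent.Q178.SK
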