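import Pool.Agent.Q160.SK.Stm
import Pool.Agent.Q178.SK.Tool

/-!
# JOBS REL and SLI: the relations on `X[z]`
-/

set_option autoImplicit false
set_option linter.unusedSectionVars false
set_option linter.unusedSimpArgs false

namespace Pool.Agent.Q178.SK

open Pool.Agent.Q160.SK

variable {A J C X : Type} [DecidableEq A] [Fintype A] [DecidableEq J] [DecidableEq C] [Fintype C]
  [AddCommGroup X] [Module ℚ X] {R : Dat A J} {O : Ops A J C X}

section app

variable (hR : Rels R O)
include hR

theorem ZZ_ap (a : A) (c : C) (b : A) (d : C) (x : X) :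
    O.Z a c (O.Z b d x) = O.Z b d (O.Z a c x) := LinearMap.congr_fun (hR.ZZ a c b d) x

theorem hh_ap (a b : A) (x : X) : O.h a (O.h b x) = O.h b (O.h a x) :=
  LinearMap.congr_fun (hR.hh a b) x

theorem hZ_self (a : A) (c : C) (x : X) :
    O.h a (O.Z a c x) = O.Z a c (O.h a x) + O.Z a c x := by
  have h := LinearMap.congr_fun (hR.hZ a a c) x
  rw [if_pos rfl] at h
  exact h

theorem hZ_ne (a b : A) (c : C) (x : X) (hab : a ≠ b) :
    O.h a (O.Z b c x) = O.Z b c (O.h a x) := by
  have h := LinearMap.congr_fun (hR.hZ a b c) x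
  rw [if_neg hab, add_zero] at h
  exact h

theorem he_ap (a : A) (j : J) (x : X) :
    O.h a (O.e j x) = O.e j (O.h a x) + (R.al j a : ℚ) • O.e j x :=
  LinearMap.congr_fun (hR.he a j) x

theorem eZ_src (j : J) (c : C) (x : X) :
    O.e j (O.Z (R.src j) c x) = O.Z (R.src j) c (O.e j x) + O.Z (R.tgt j) c x := by
  have h := LinearMap.congr_fun (hR.eZ j (R.src j) c) x
  rw [if_pos rfl] at h
  exact h

theorem eZ_ne (j : J) (a : A) (c : C) (x : X) (ha : a ≠ R.src j) :
    O.e j (O.Z a c x) = O.Z a c (O.e j x) := by
  have h := LinearMap.congr_fun (hR.eZ j a c) x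
  rw [if_neg ha, add_zero] at h
  exact h

theorem H_e (i j : J) (x : X) :
    (O.h (R.tgt i) - O.h (R.src i)) (O.e j x)
      = O.e j ((O.h (R.tgt i) - O.h (R.src i)) x) + (R.car i j : ℚ) • O.e j x := by
  simp only [LinearMap.sub_apply, he_ap hR, map_sub, Dat.car]
  push_cast
  module

theorem H_h (i : J) (a : A) (x : X) :
    (O.h (R.tgt i) - O.h (R.src i)) (O.h a x)
      = O.h a ((O.h (R.tgt i) - O.h (R.src i)) x) := by
  simp only [LinearMap.sub_apply, map_sub, hh_ap hR a]

theorem H_Ztgt (i : J) (c : C) (x : X) :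
    (O.h (R.tgt i) - O.h (R.src i)) (O.Z (R.tgt i) c x)
      = O.Z (R.tgt i) c ((O.h (R.tgt i) - O.h (R.src i)) x) + O.Z (R.tgt i) c x := by
  simp only [LinearMap.sub_apply, map_sub, hZ_self hR, hZ_ne hR _ _ _ _ (R.ne i)]
  module

theorem H_Zsrc (i : J) (c : C) (x : X) :
    (O.h (R.tgt i) - O.h (R.src i)) (O.Z (R.src i) c x)
      = O.Z (R.src i) c ((O.h (R.tgt i) - O.h (R.src i)) x) - O.Z (R.src i) c x := by
  simp only [LinearMap.sub_apply, map_sub, hZ_self hR, hZ_ne hR _ _ _ _ (Ne.symm (R.ne i))]
  module

theorem H_Zne (i : J) (a : A) (c : C) (x : X) (h1 : a ≠ R.tgt i) (h2 : a ≠ R.src i) :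
    (O.h (R.tgt i) - O.h (R.src i)) (O.Z a c x)
      = O.Z a c ((O.h (R.tgt i) - O.h (R.src i)) x) := by
  simp only [LinearMap.sub_apply, map_sub, hZ_ne hR _ _ _ _ (Ne.symm h1),
    hZ_ne hR _ _ _ _ (Ne.symm h2)]

end app

theorem car_self (j : J) : R.car j j = 2 := by
  simp only [Dat.car, al_tgt, al_src]
  norm_num

theorem sgl_smul (q : ℕ) (c : ℚ) (x : X) :
    (Finsupp.single q (c • x) : ℕ →₀ X) = c • Finsupp.single q x :=
  (Finsupp.smul_single c q x).symm

theorem ext_single {f g : Module.End ℚ (ℕ →₀ X)}
    (h : ∀ q x, f (Finsupp.single q x) = g (Finsupp.single q x)) : f = g :=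
  Finsupp.lhom_ext h

section rel

variable (hR : Rels R O) (i : J)
include hR

theorem rel_ZZ (a : A) (c : C) (b : A) (d : C) :
    (ind R O i).Z a c * (ind R O i).Z b d = (ind R O i).Z b d * (ind R O i).Z a c := by
  apply ext_single
  intro q x
  simp only [Module.End.mul_apply]
  by_cases ha : a = R.tgt i
  · subst ha
    by_cases hb : b = R.tgt i
    · subst hb
      simp only [Z_tgt_single, map_sub]
      rw [ZZ_ap hR (R.tgt i) c (R.tgt i) d, ZZ_ap hR (R.src i) c (R.src i) d,
        ZZ_ap hR (R.tgt i) c (R.src i) d, ZZ_ap hR (R.tgt i) d (R.src i) c]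
      abel
    · simp only [Z_tgt_single, Z_ne_single R O i b hb, map_sub]
      rw [ZZ_ap hR (R.tgt i) c b d, ZZ_ap hR (R.src i) c b d]
  · by_cases hb : b = R.tgt i
    · subst hb
      simp only [Z_tgt_single, Z_ne_single R O i a ha, map_sub]
      rw [ZZ_ap hR (R.tgt i) d a c, ZZ_ap hR (R.src i) d a c]
    · simp only [Z_ne_single R O i b hb, Z_ne_single R O i a ha]
      rw [ZZ_ap hR a c b d]

theorem rel_hh (a b : A) :
    (ind R O i).h a * (ind R O i).h b = (ind R O i).h b * (ind R O i).h a := by
  apply ext_single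
  intro q x
  simp only [Module.End.mul_apply, h_single, map_add, map_smul]
  rw [hh_ap hR a b]
  module

theorem rel_hZ (a b : A) (c : C) :
    (ind R O i).h a * (ind R O i).Z b c = (ind R O i).Z b c * (ind R O i).h a
      + (if a = b then (ind R O i).Z b c else 0) := by
  apply ext_single
  intro q x
  simp only [Module.End.mul_apply, LinearMap.add_apply]
  by_cases hab : a = b
  · subst hab
    rw [if_pos rfl]
    by_cases ha : a = R.tgt i
    · subst ha
      simp only [Z_tgt_single, map_sub, h_single, map_add, map_smul, hZ_self hR,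
        hZ_ne hR _ _ _ _ (Ne.symm (R.ne i)), al_tgt, Finsupp.single_add]
      push_cast
      module
    · simp only [Z_ne_single R O i a ha, h_single, map_add, map_smul, hZ_self hR,
        Finsupp.single_add]
      module
  · rw [if_neg hab, LinearMap.zero_apply, add_zero]
    by_cases hb : b = R.tgt i
    · subst hb
      by_cases ha : a = R.src i
      · subst ha
        simp only [Z_tgt_single, map_sub, h_single, map_add, map_smul, hZ_self hR,
          hZ_ne hR _ _ _ _ (R.ne i), al_src, Finsupp.single_add]
        push_cast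
        module
      · simp only [Z_tgt_single, map_sub, h_single, map_add, map_smul,
          hZ_ne hR _ _ _ _ ha, hZ_ne hR _ _ _ _ hab, al_of_ne R i a hab ha]
        push_cast
        module
    · simp only [Z_ne_single R O i b hb, h_single, map_add, map_smul, hZ_ne hR _ _ _ _ hab]

theorem rel_he (a : A) (j : J) :
    (ind R O i).h a * (ind R O i).e j = (ind R O i).e j * (ind R O i).h a
      + (R.al j a : ℚ) • (ind R O i).e j := by
  apply ext_single
  intro q x
  simp only [Module.End.mul_apply, LinearMap.add_apply, LinearMap.smul_apply]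
  by_cases hj : j = i
  · subst hj
    simp only [e_self_single, h_single, map_add, map_smul, he_ap hR, Finsupp.single_add,
      sgl_smul, H_h hR]
    push_cast
    module
  · simp only [e_ne_single R O i j hj, h_single, map_add, map_smul, he_ap hR, Finsupp.single_add,
      sgl_smul]
    module

theorem rel_eZ (j : J) (a : A) (c : C) :
    (ind R O i).e j * (ind R O i).Z a c = (ind R O i).Z a c * (ind R O i).e j
      + (if a = R.src j then (ind R O i).Z (R.tgt j) c else 0) := by
  apply ext_single
  intro q x
  simp only [Module.End.mul_apply, LinearMap.add_apply]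
  have hst : R.src i ≠ R.tgt i := R.ne i
  by_cases hj : j = i
  · subst hj
    by_cases ha : a = R.src j
    · subst ha
      rw [if_pos rfl]
      simp only [Z_ne_single R O j _ hst, e_self_single, Z_tgt_single, map_add, map_sub, map_smul,
        eZ_src hR, H_Zsrc hR, Finsupp.single_add, Finsupp.single_sub, sgl_smul]
      module
    · rw [if_neg ha, LinearMap.zero_apply, add_zero]
      by_cases hb : a = R.tgt j
      · subst hb
        simp only [e_self_single, Z_tgt_single, map_add, map_sub, map_smul,
          eZ_src hR, eZ_ne hR _ _ _ _ (Ne.symm hst), H_Zsrc hR, H_Ztgt hR, Finsupp.single_add,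
          Finsupp.single_sub, sgl_smul]
        push_cast
        module
      · simp only [Z_ne_single R O j _ hb, e_self_single, map_add, map_smul,
          eZ_ne hR _ _ _ _ ha, H_Zne hR _ _ _ _ hb ha]
  · have hts : R.tgt j ≠ R.tgt i := fun e => hj (R.tgt_inj j i e)
    have hss : R.src i ≠ R.src j := fun e => hj (R.src_inj i j e).symm
    by_cases ha : a = R.src j
    · subst ha
      rw [if_pos rfl]
      by_cases hb : R.src j = R.tgt i
      · rw [hb]
        simp only [Z_tgt_single, Z_ne_single R O i _ hts, e_ne_single R O i j hj, map_sub,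
          eZ_ne hR _ _ _ _ hss]
        rw [← hb, eZ_src hR, Finsupp.single_add]
        abel
      · simp only [Z_ne_single R O i _ hts, Z_ne_single R O i _ hb, e_ne_single R O i j hj,
          eZ_src hR, Finsupp.single_add]
    · rw [if_neg ha, LinearMap.zero_apply, add_zero]
      by_cases hb : a = R.tgt i
      · subst hb
        simp only [Z_tgt_single, e_ne_single R O i j hj, map_sub, eZ_ne hR _ _ _ _ hss,
          eZ_ne hR _ _ _ _ ha]
      · simp only [Z_ne_single R O i _ hb, e_ne_single R O i j hj, eZ_ne hR _ _ _ _ ha]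

theorem s0_ap (j k : J) (hjk : j ≠ k) (h : R.car j k = 0) (x : X) :
    O.e j (O.e k x) = O.e k (O.e j x) := LinearMap.congr_fun (hR.serre0 j k hjk h) x

theorem s1_ap (j k : J) (hjk : j ≠ k) (h : R.car j k = -1) (x : X) :
    O.e j (O.e j (O.e k x)) - (2 : ℚ) • O.e j (O.e k (O.e j x)) + O.e k (O.e j (O.e j x)) = 0 :=
  LinearMap.congr_fun (hR.serre1 j k hjk h) x

theorem rel_s0_aux (j : J) (hj : j ≠ i) (h : R.car i j = 0) :
    (ind R O i).e i * (ind R O i).e j = (ind R O i).e j * (ind R O i).e i := by
  apply ext_single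
  intro q x
  simp only [Module.End.mul_apply, e_self_single, e_ne_single R O i j hj, map_add, map_smul,
    H_e hR, h]
  rw [s0_ap hR i j (Ne.symm hj) h]
  simp

theorem rel_s0 (j k : J) (hjk : j ≠ k) (h : R.car j k = 0) :
    (ind R O i).e j * (ind R O i).e k = (ind R O i).e k * (ind R O i).e j := by
  by_cases hj : j = i
  · subst hj
    exact rel_s0_aux hR j k (Ne.symm hjk) h
  · by_cases hk : k = i
    · subst hk
      exact (rel_s0_aux hR k j hjk (by rw [car_comm]; exact h)).symm
    · apply ext_single
      intro q x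
      simp only [Module.End.mul_apply, e_ne_single R O i j hj, e_ne_single R O i k hk]
      rw [s0_ap hR j k hjk h]

theorem rel_s1 (j k : J) (hjk : j ≠ k) (h : R.car j k = -1) :
    (ind R O i).e j * (ind R O i).e j * (ind R O i).e k
      - (2 : ℚ) • ((ind R O i).e j * (ind R O i).e k * (ind R O i).e j)
      + (ind R O i).e k * (ind R O i).e j * (ind R O i).e j = 0 := by
  apply ext_single
  intro q x
  simp only [Module.End.mul_apply, LinearMap.add_apply, LinearMap.sub_apply, LinearMap.smul_apply,
    LinearMap.zero_apply]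
  have hs := congrArg (fun y => (Finsupp.single q y : ℕ →₀ X)) (s1_ap hR j k hjk h x)
  simp only [Finsupp.single_add, Finsupp.single_sub, sgl_smul, Finsupp.single_zero] at hs
  by_cases hj : j = i
  · subst hj
    have h2 : R.car j j = 2 := car_self j
    simp only [e_self_single, e_ne_single R O j k (Ne.symm hjk), map_add, map_smul,
      H_e hR, h, h2, Finsupp.single_add, sgl_smul]
    push_cast
    linear_combination (norm := module) hs
  · by_cases hk : k = i
    · subst hk
      have h2 : R.car k j = -1 := by rw [car_comm]; exact h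
      simp only [e_self_single, e_ne_single R O k j hj, map_add, map_smul,
        H_e hR, h2, Finsupp.single_add, sgl_smul]
      push_cast
      linear_combination (norm := module) hs
    · simp only [e_ne_single R O i j hj, e_ne_single R O i k hk]
      exact hs

theorem rel_all : Rels R (ind R O i) :=
  { ZZ := rel_ZZ hR i
    hh := rel_hh hR i
    hZ := rel_hZ hR i
    he := rel_he hR i
    eZ := rel_eZ hR i
    serre0 := rel_s0 hR i
    serre1 := rel_s1 hR i }

end rel

theorem t_REL : S_REL := by
  intro A J C X _ _ _ _ _ _ _ R O i hR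
  exact rel_all hR i

end Pool.Agent.Q178.SK
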