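import Pool.Agent.Q178.SK.Alg

/-!
# JOB SL2: strings of integrable sl2-modules
-/

set_option autoImplicit false
set_option linter.unusedSectionVars false
set_option linter.unusedSimpArgs false

namespace Pool.Agent.Q178.SK

open Pool.Agent.Q160.SK

variable {Y : Type} [AddCommGroup Y] [Module ℚ Y] {E F H : Module.End ℚ Y}

theorem fA (hEF : E * F = F * E + H) (hHE : H * E = E * H + (2 : ℚ) • E) (w : ℚ) (x : Y)
    (hx : H x = w • x) (k : ℕ) :
    (E ^ (k + 1)) (F x) = F ((E ^ (k + 1)) x) + (((k : ℚ) + 1) * (w + k)) • (E ^ k) x := by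
  have h1 := LinearMap.congr_fun (pow_comm2 E F H hEF hHE k) x
  simp only [Module.End.mul_apply, LinearMap.add_apply, LinearMap.smul_apply, hx, map_smul] at h1
  rw [h1]
  module

theorem fB (hEF : E * F = F * E + H) (hHF : H * F = F * H - (2 : ℚ) • F) (w : ℚ) (x : Y)
    (hx : H x = w • x) (k : ℕ) :
    (F ^ (k + 1)) (E x) = E ((F ^ (k + 1)) x) - (((k : ℚ) + 1) * (w - k)) • (F ^ k) x := by
  have h1 := LinearMap.congr_fun (pow_comm3 E F H hEF hHF k) x
  simp only [Module.End.mul_apply, LinearMap.add_apply, LinearMap.sub_apply,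
    LinearMap.smul_apply, hx, map_smul] at h1
  rw [h1]
  module

theorem hw (hEF : E * F = F * E + H) (hHF : H * F = F * H - (2 : ℚ) • F) (m : ℚ) (u : Y)
    (hu : H u = m • u) (hEu : E u = 0) (q r : ℕ) (hqr : (q : ℚ) + r < m + 1) :
    ∃ c : ℚ, c ≠ 0 ∧ (E ^ q) ((F ^ (q + r)) u) = c • (F ^ r) u := by
  induction q with
  | zero => exact ⟨1, one_ne_zero, by simp⟩
  | succ q ih =>
    push_cast at hqr
    obtain ⟨c, hc, hc2⟩ := ih (by linarith)
    have h1 := fB hEF hHF m u hu (q + r)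
    rw [hEu, map_zero] at h1
    have h2 : E ((F ^ (q + r + 1)) u)
        = ((((q + r : ℕ) : ℚ) + 1) * (m - ((q + r : ℕ) : ℚ))) • (F ^ (q + r)) u := by
      rw [eq_comm, ← sub_eq_zero, ← neg_eq_zero, neg_sub]
      exact h1.symm
    refine ⟨((((q + r : ℕ) : ℚ) + 1) * (m - ((q + r : ℕ) : ℚ))) * c, ?_, ?_⟩
    · refine mul_ne_zero (mul_ne_zero (by positivity) ?_) hc
      push_cast
      intro h3
      linarith
    · rw [pow_succ, Module.End.mul_apply, show q + 1 + r = q + r + 1 by omega, h2, map_smul, hc2,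
        smul_smul]

theorem sl0 (hEF : E * F = F * E + H) (hHE : H * E = E * H + (2 : ℚ) • E) (p : ℕ) (y : Y)
    (hF : F y = 0) (hH : H y = (-(p : ℚ)) • y) : F ((E ^ (p + 1)) y) = 0 := by
  have h1 := fA hEF hHE _ y hH p
  rw [hF, map_zero, neg_add_cancel, mul_zero, zero_smul, add_zero] at h1
  exact h1.symm

theorem t_SL0 : S_SL0 := by
  intro Y _ _ E F H h1 h2 h3 p y hy hH
  exact sl0 h1 h2 p y hy hH

section str

variable {W : ℤ → Submodule ℚ Y} {a : ℤ}

theorem _root_.Pool.Agent.Q160.SK.Str.mirror (h : Str E F H W a) : Str F E (-H) (fun n => W (-n)) (-a) where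
  EF := by rw [h.EF]; abel
  HE := by rw [neg_mul, h.HF, mul_neg]; abel
  HF := by rw [neg_mul, h.HE, mul_neg]; abel
  hE := by
    intro n x hx
    have h1 := h.hF (-n) x hx
    rw [show -(n + 1) = -n - 1 by ring]
    exact h1
  hF := by
    intro n x hx
    have h1 := h.hE (-n) x hx
    rw [show -(n - 1) = -n + 1 by ring]
    exact h1
  hH := by
    intro n x hx
    rw [LinearMap.neg_apply, h.hH (-n) x hx, ← neg_smul]
    congr 1
    push_cast
    ring
  nE := fun n x hx => h.nF (-n) x hx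
  nF := fun n x hx => h.nE (-n) x hx

theorem _root_.Pool.Agent.Q160.SK.Str.memE (h : Str E F H W a) (k : ℕ) (n : ℤ) (x : Y) (hx : x ∈ W n) :
    (E ^ k) x ∈ W (n + k) := by
  induction k with
  | zero => simpa using hx
  | succ k ih =>
    rw [pow_succ', Module.End.mul_apply]
    have h1 := h.hE _ _ ih
    rw [show n + ((k + 1 : ℕ) : ℤ) = n + k + 1 by push_cast; ring]
    exact h1

theorem _root_.Pool.Agent.Q160.SK.Str.memF (h : Str E F H W a) (k : ℕ) (n : ℤ) (x : Y) (hx : x ∈ W n) :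
    (F ^ k) x ∈ W (n - k) := by
  induction k with
  | zero => simpa using hx
  | succ k ih =>
    rw [pow_succ', Module.End.mul_apply]
    have h1 := h.hF _ _ ih
    rw [show n - ((k + 1 : ℕ) : ℤ) = n - k - 1 by push_cast; ring]
    exact h1

theorem _root_.Pool.Agent.Q160.SK.Str.surj (h : Str E F H W a) (r : ℕ) : ∀ (n : ℤ) (q : ℕ), a + 2 * n = q →
    ∀ y ∈ W n, (E ^ r) y = 0 → ∃ x ∈ W (n - q), (E ^ q) x = y := by
  induction r with
  | zero =>
    intro n q hn y hy h0
    refine ⟨0, Submodule.zero_mem _, ?_⟩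
    rw [map_zero]
    simpa using h0.symm
  | succ r ih =>
    intro n q hn y hy h0
    have hu1 : (E ^ r) y ∈ W (n + r) := h.memE r n y hy
    have hu2 : E ((E ^ r) y) = 0 := by
      rw [← Module.End.mul_apply, ← pow_succ']; exact h0
    have hu3 : H ((E ^ r) y) = ((q : ℚ) + 2 * r) • (E ^ r) y := by
      rw [h.hH _ _ hu1]
      congr 1
      rw [show a + 2 * (n + (r : ℤ)) = q + 2 * r by rw [← hn]; ring]
      push_cast
      ring
    have hq0 : (0 : ℚ) ≤ q := Nat.cast_nonneg q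
    have hr0 : (0 : ℚ) ≤ r := Nat.cast_nonneg r
    obtain ⟨c, hc, hc2⟩ := hw h.EF h.HF _ _ hu3 hu2 r 0 (by push_cast; linarith)
    obtain ⟨c', hc', hc3⟩ := hw h.EF h.HF _ _ hu3 hu2 q r (by linarith)
    rw [add_zero, pow_zero, Module.End.one_apply] at hc2
    have hy' : y - c⁻¹ • (F ^ r) ((E ^ r) y) ∈ W n := by
      refine Submodule.sub_mem _ hy (Submodule.smul_mem _ _ ?_)
      have h5 := h.memF r _ _ hu1
      rwa [add_sub_cancel_right] at h5
    obtain ⟨x, hx, hx2⟩ := ih n q hn _ hy' (by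
      rw [map_sub, map_smul, hc2, smul_smul, inv_mul_cancel₀ hc, one_smul, sub_self])
    refine ⟨x + (c⁻¹ * c'⁻¹) • (F ^ (q + r)) ((E ^ r) y), ?_, ?_⟩
    · refine Submodule.add_mem _ hx (Submodule.smul_mem _ _ ?_)
      have h5 := h.memF (q + r) _ _ hu1
      rwa [show n + (r : ℤ) - ((q + r : ℕ) : ℤ) = n - q by push_cast; ring] at h5
    · rw [map_add, hx2, map_smul, hc3, smul_smul, mul_assoc, inv_mul_cancel₀ hc', mul_one,
        sub_add_cancel]

theorem _root_.Pool.Agent.Q160.SK.Str.surjE (h : Str E F H W a) (n : ℤ) (q : ℕ) (hn : a + 2 * n = q) (y : Y)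
    (hy : y ∈ W n) : ∃ x ∈ W (n - q), (E ^ q) x = y := by
  obtain ⟨N, hN⟩ := h.nE n y hy
  exact h.surj N n q hn y hy hN

theorem _root_.Pool.Agent.Q160.SK.Str.surjF (h : Str E F H W a) (n : ℤ) (q : ℕ) (hn : a + 2 * n = -(q : ℤ)) (y : Y)
    (hy : y ∈ W n) : ∃ x ∈ W (n + q), (F ^ q) x = y := by
  obtain ⟨x, hx, hx2⟩ := h.mirror.surjE (-n) q (by linarith) y (by simpa using hy)
  refine ⟨x, ?_, hx2⟩
  have h1 : -(-n - (q : ℤ)) = n + q := by ring
  rw [h1] at hx
  exact hx

theorem _root_.Pool.Agent.Q160.SK.Str.surj1 (h : Str E F H W a) (n : ℤ) (hn : a + 2 * n ≤ 1) (y : Y)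
    (hy : y ∈ W (n - 1)) : ∃ x ∈ W n, F x = y := by
  obtain ⟨b, hb⟩ : ∃ b : ℕ, a + 2 * (n - 1) = -((b + 1 : ℕ) : ℤ) := by
    refine ⟨(1 - a - 2 * n).toNat, ?_⟩
    push_cast
    rw [Int.toNat_of_nonneg (by linarith)]
    ring
  obtain ⟨x, hx, hx2⟩ := h.surjF (n - 1) (b + 1) hb y hy
  refine ⟨(F ^ b) x, ?_, ?_⟩
  · have h1 := h.memF b _ _ hx
    rwa [show n - 1 + ((b + 1 : ℕ) : ℤ) - b = n by push_cast; ring] at h1
  · rw [← Module.End.mul_apply, ← pow_succ']
    exact hx2

theorem _root_.Pool.Agent.Q160.SK.Str.inj (h : Str E F H W a) (n : ℤ) (hn : 0 < a + 2 * n) (y : Y) (hy : y ∈ W n)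
    (hF : F y = 0) : y = 0 := by
  obtain ⟨N, hN⟩ := h.nE n y hy
  have hH := h.hH n y hy
  have key : ∀ k : ℕ, (E ^ (k + 1)) y = 0 → (E ^ k) y = 0 := by
    intro k hk
    have h1 := fA h.EF h.HE _ y hH k
    rw [hF, map_zero, hk, map_zero, zero_add, eq_comm, smul_eq_zero] at h1
    rcases h1 with h1 | h1
    · exfalso
      have h2 : (0 : ℚ) < ((a + 2 * n : ℤ) : ℚ) := by exact_mod_cast hn
      have h3 : (0 : ℚ) < (((k : ℚ) + 1) * (((a + 2 * n : ℤ) : ℚ) + k)) := by positivity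
      exact h3.ne' h1
    · exact h1
  induction N with
  | zero => simpa using hN
  | succ N ih => exact ih (key N hN)

theorem _root_.Pool.Agent.Q160.SK.Str.low (h : Str E F H W a) (n : ℤ) (p : ℕ) (hn : a + 2 * n = -(p : ℤ)) (y : Y)
    (hy : y ∈ W n) (hF : F y = 0) : (E ^ (p + 1)) y = 0 := by
  have hH := h.hH n y hy
  rw [hn] at hH
  push_cast at hH
  refine h.inj _ ?_ _ (h.memE (p + 1) n y hy) (sl0 h.EF h.HE p y hF hH)
  push_cast
  linarith

theorem t_SLS : S_SLS := by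
  intro Y _ _ E F H W a h
  exact ⟨h.surjE, h.surjF, h.surj1, h.inj, h.low⟩

theorem finrank_le_of_surj (T : Module.End ℚ Y) (W1 W2 : Submodule ℚ Y) (hf : Module.Finite ℚ W1)
    (h : ∀ y ∈ W2, ∃ x ∈ W1, T x = y) :
    Module.finrank ℚ ↥W2 ≤ Module.finrank ℚ ↥W1 := by
  have h1 : W2 ≤ W1.map T := by
    intro y hy
    obtain ⟨x, hx, hx2⟩ := h y hy
    exact ⟨x, hx, hx2⟩
  exact (Submodule.finrank_mono h1).trans (Submodule.finrank_map_le T W1)

theorem _root_.Pool.Agent.Q160.SK.Str.symm_aux (h : Str E F H W a) (hf : ∀ n, Module.Finite ℚ ↥(W n)) (n : ℤ)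
    (hn : 0 ≤ a + 2 * n) : Module.finrank ℚ ↥(W n) = Module.finrank ℚ ↥(W (-a - n)) := by
  obtain ⟨q, hq⟩ := Int.eq_ofNat_of_zero_le hn
  have h1 : n - (q : ℤ) = -a - n := by linarith
  apply le_antisymm
  · refine finrank_le_of_surj (E ^ q) _ _ (hf _) ?_
    intro y hy
    obtain ⟨x, hx, hx2⟩ := h.surjE n q hq y hy
    rw [h1] at hx
    exact ⟨x, hx, hx2⟩
  · refine finrank_le_of_surj (F ^ q) _ _ (hf _) ?_
    intro y hy
    obtain ⟨x, hx, hx2⟩ := h.surjF (-a - n) q (by linarith) y hy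
    rw [show -a - n + (q : ℤ) = n by linarith] at hx
    exact ⟨x, hx, hx2⟩

theorem t_SLF : S_SLF := by
  intro Y _ _ E F H W a h hf n
  rcases le_total 0 (a + 2 * n) with hn | hn
  · exact Str.symm_aux h hf n hn
  · have h1 := Str.symm_aux h hf (-a - n) (by linarith)
    rw [show -a - (-a - n) = n by ring] at h1
    exact h1.symm

theorem _root_.Pool.Agent.Q160.SK.Str.inj2 (h : Str E F H W a) (s : ℕ) : ∀ (n : ℤ) (b : ℕ), a + 2 * n = b → ∀ y ∈ W n,
    (E ^ s) y = 0 → (F ^ b) y = 0 → y = 0 := by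
  induction s with
  | zero =>
    intro n b hn y hy h0 _
    simpa using h0
  | succ s ih =>
    intro n b hn y hy h0 hFb
    refine ih n b hn y hy ?_ hFb
    have key : ∀ k : ℕ, k ≤ b → (E ^ (s + 1 + k)) ((F ^ k) y) = 0 ∧
        ∃ c : ℚ, c ≠ 0 ∧ (E ^ (s + k)) ((F ^ k) y) = c • (E ^ s) y := by
      intro k
      induction k with
      | zero =>
        intro _
        exact ⟨by simpa using h0, 1, one_ne_zero, by simp⟩
      | succ k ihk =>
        intro hk
        obtain ⟨h1, c, hc, h2⟩ := ihk (by omega)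
        have h3 : (F ^ k) y ∈ W (n - k) := h.memF k n y hy
        have h4 := h.hH _ _ h3
        have h5 := fA h.EF h.HE _ _ h4
        constructor
        · rw [pow_succ' F, Module.End.mul_apply, show s + 1 + (k + 1) = s + 1 + k + 1 by omega, h5]
          rw [pow_succ', Module.End.mul_apply, h1]
          simp
        · refine ⟨((((s + k : ℕ) : ℚ) + 1) * (((a + 2 * (n - (k : ℤ)) : ℤ) : ℚ)
            + ((s + k : ℕ) : ℚ))) * c, ?_, ?_⟩
          · refine mul_ne_zero (mul_ne_zero (by positivity) ?_) hc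
            rw [show a + 2 * (n - (k : ℤ)) = b - 2 * k by linarith]
            have hk2 : ((k : ℚ) + 1) ≤ b := by exact_mod_cast hk
            have hs0 : (0 : ℚ) ≤ s := Nat.cast_nonneg s
            push_cast
            intro h6
            linarith
          · rw [pow_succ' F, Module.End.mul_apply, ← Nat.add_assoc, h5]
            rw [show s + k + 1 = s + 1 + k by omega, h1, map_zero, zero_add, h2, smul_smul]
    obtain ⟨_, c, hc, h2⟩ := key b le_rfl
    rw [hFb, map_zero, eq_comm, smul_eq_zero] at h2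
    rcases h2 with h2 | h2
    · exact absurd h2 hc
    · exact h2

theorem _root_.Pool.Agent.Q160.SK.Str.gen (h : Str E F H W a) (P : ℤ → Submodule ℚ Y) (hP : ∀ n, ∀ x ∈ P n, E x ∈ P (n + 1))
    (hl : ∀ n, ∀ y ∈ W n, F y = 0 → y ∈ P n) (r : ℕ) :
    ∀ n, ∀ y ∈ W n, (F ^ r) y = 0 → y ∈ P n := by
  have hPk : ∀ (k : ℕ) (n : ℤ) (x : Y), x ∈ P n → (E ^ k) x ∈ P (n + k) := by
    intro k n x hx
    induction k with
    | zero => simpa using hx
    | succ k ih =>
      rw [pow_succ', Module.End.mul_apply]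
      have h1 := hP _ _ ih
      rw [show n + ((k + 1 : ℕ) : ℤ) = n + k + 1 by push_cast; ring]
      exact h1
  induction r with
  | zero =>
    intro n y hy h0
    have : y = 0 := by simpa using h0
    rw [this]
    exact Submodule.zero_mem _
  | succ r ih =>
    intro n y hy h0
    have hu1 : (F ^ r) y ∈ W (n - r) := h.memF r n y hy
    have hu2 : F ((F ^ r) y) = 0 := by
      rw [← Module.End.mul_apply, ← pow_succ']; exact h0
    rcases lt_or_ge 0 (a + 2 * (n - (r : ℤ))) with hw1 | hw1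
    · exact ih n y hy (h.inj _ hw1 _ hu1 hu2)
    · obtain ⟨p, hp⟩ : ∃ p : ℕ, a + 2 * (n - (r : ℤ)) = -(p : ℤ) :=
        ⟨(-(a + 2 * (n - (r : ℤ)))).toNat, by rw [Int.toNat_of_nonneg (by linarith)]; ring⟩
      rcases le_or_gt r p with hrp | hrp
      · have hu3 : (-H) ((F ^ r) y) = (p : ℚ) • (F ^ r) y := by
          rw [LinearMap.neg_apply, h.hH _ _ hu1, hp, ← neg_smul]
          push_cast
          rw [neg_neg]
        have hrp2 : (r : ℚ) ≤ p := by exact_mod_cast hrp
        obtain ⟨c, hc, hc2⟩ := hw h.mirror.EF h.mirror.HF _ _ hu3 hu2 r 0 (by push_cast; linarith)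
        rw [add_zero, pow_zero, Module.End.one_apply] at hc2
        have h6 : (E ^ r) ((F ^ r) y) ∈ P n := by
          have h7 := hPk r _ _ (hl _ _ hu1 hu2)
          rwa [sub_add_cancel] at h7
        have h8 : y - c⁻¹ • (E ^ r) ((F ^ r) y) ∈ W n := by
          refine Submodule.sub_mem _ hy (Submodule.smul_mem _ _ ?_)
          have h7 := h.memE r _ _ hu1
          rwa [sub_add_cancel] at h7
        have h9 := ih n _ h8 (by
          rw [map_sub, map_smul, hc2, smul_smul, inv_mul_cancel₀ hc, one_smul, sub_self])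
        have h10 := Submodule.add_mem _ h9 (Submodule.smul_mem _ c⁻¹ h6)
        rwa [sub_add_cancel] at h10
      · obtain ⟨b, hb⟩ : ∃ b : ℕ, a + 2 * n = b :=
          ⟨(a + 2 * n).toNat, by rw [Int.toNat_of_nonneg (by linarith)]⟩
        have hb2 : r + 1 ≤ b := by
          have : (r : ℤ) + 1 ≤ b := by
            have : (p : ℤ) + 1 ≤ r := by exact_mod_cast hrp
            linarith
          exact_mod_cast this
        have hFb : (F ^ b) y = 0 := by
          rw [show b = (b - (r + 1)) + (r + 1) by omega, pow_add, Module.End.mul_apply, h0,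
            map_zero]
        obtain ⟨N, hN⟩ := h.nE n y hy
        rw [h.inj2 N n b hb y hy hN hFb]
        exact Submodule.zero_mem _

theorem t_SLG : S_SLG := by
  intro Y _ _ E F H W P a h hP hl n y hy
  obtain ⟨N, hN⟩ := h.nF n y hy
  exact Str.gen h P hP hl N n y hy hN

end str

end Pool.Agent.Q178.SK
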