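import Pool.Agent.Q178.SK.Rel

/-!
# JOB SLI: the sl2-triple on `X[z]` and the commutators with `dd`
-/

set_option autoImplicit false
set_option linter.unusedSectionVars false
set_option linter.unusedSimpArgs false

namespace Pool.Agent.Q178.SK

open Pool.Agent.Q160.SK

variable {A J C X : Type} [DecidableEq A] [Fintype A] [DecidableEq J] [DecidableEq C] [Fintype C]
  [AddCommGroup X] [Module ℚ X] {R : Dat A J} {O : Ops A J C X}

variable (hR : Rels R O) (i : J)
include hR

theorem sli_EF : (ind R O i).e i * (-dd) = (-dd) * (ind R O i).e i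
    + ((ind R O i).h (R.tgt i) - (ind R O i).h (R.src i)) := by
  apply ext_single
  intro q x
  simp only [Module.End.mul_apply, LinearMap.add_apply, LinearMap.sub_apply, LinearMap.neg_apply,
    h_single, al_tgt, al_src]
  rcases q with _ | q
  · simp only [dd_single, e_self_single, map_add, map_sub, map_smul, LinearMap.sub_apply,
      Finsupp.single_sub, Nat.cast_zero, zero_smul, neg_zero, map_zero, zero_add, add_zero,
      Nat.cast_one, one_smul, Nat.sub_self]
    push_cast
    module
  · simp only [dd_single, e_self_single, map_add, map_sub, map_smul, map_neg, LinearMap.sub_apply,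
      Finsupp.single_sub, Nat.add_sub_cancel, smul_add]
    push_cast
    module

theorem sli_HE : ((ind R O i).h (R.tgt i) - (ind R O i).h (R.src i)) * (ind R O i).e i
    = (ind R O i).e i * ((ind R O i).h (R.tgt i) - (ind R O i).h (R.src i))
      + (2 : ℚ) • (ind R O i).e i := by
  have h1 := rel_he hR i (R.tgt i) i
  have h2 := rel_he hR i (R.src i) i
  rw [al_tgt] at h1
  rw [al_src] at h2
  rw [sub_mul, h1, h2, mul_sub]
  push_cast
  module

theorem sli_h (a : A) :
    (ind R O i).h a * (-dd) = (-dd) * (ind R O i).h a - (R.al i a : ℚ) • (-dd) := by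
  apply ext_single
  intro q x
  simp only [Module.End.mul_apply, LinearMap.add_apply, LinearMap.sub_apply, LinearMap.neg_apply,
    LinearMap.smul_apply, h_single]
  rcases q with _ | q
  · simp only [dd_single, h_single, map_add, map_smul, Nat.cast_zero, zero_smul, neg_zero,
      map_zero, zero_add, add_zero, mul_zero, smul_zero, sub_zero]
  · simp only [dd_single, h_single, map_add, map_smul, map_neg, Nat.add_sub_cancel, smul_add]
    push_cast
    module

theorem sli_HF : ((ind R O i).h (R.tgt i) - (ind R O i).h (R.src i)) * (-dd)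
    = (-dd) * ((ind R O i).h (R.tgt i) - (ind R O i).h (R.src i)) - (2 : ℚ) • (-dd) := by
  have h1 := sli_h hR i (R.tgt i)
  have h2 := sli_h hR i (R.src i)
  rw [al_tgt] at h1
  rw [al_src] at h2
  rw [sub_mul, h1, h2, mul_sub]
  push_cast
  module

theorem sli_Z (a : A) (c : C) : (-dd) * (ind R O i).Z a c = (ind R O i).Z a c * (-dd)
    + (if a = R.tgt i then (ind R O i).Z (R.src i) c else 0) := by
  apply ext_single
  intro q x
  simp only [Module.End.mul_apply, LinearMap.add_apply, LinearMap.neg_apply]
  by_cases ha : a = R.tgt i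
  · subst ha
    rw [if_pos rfl]
    rcases q with _ | q
    · simp only [dd_single, Z_tgt_single, Z_ne_single R O i _ (R.ne i), map_sub, map_smul,
        Nat.cast_zero, zero_smul, neg_zero, map_zero, zero_add, add_zero, zero_sub, neg_neg,
        Nat.cast_one, one_smul, Nat.sub_self]
    · simp only [dd_single, Z_tgt_single, Z_ne_single R O i _ (R.ne i), map_sub, map_smul, map_neg,
        Nat.add_sub_cancel]
      push_cast
      module
  · rw [if_neg ha, LinearMap.zero_apply, add_zero]
    simp only [dd_single, Z_ne_single R O i a ha, map_smul, map_neg]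

theorem sli_e (j : J) (hj : j ≠ i) : (-dd) * (ind R O i).e j = (ind R O i).e j * (-dd) := by
  apply ext_single
  intro q x
  simp only [Module.End.mul_apply, LinearMap.neg_apply, dd_single, e_ne_single R O i j hj,
    map_smul, map_neg]

omit hR
theorem t_SLI : S_SLI := by
  intro A J C X _ _ _ _ _ _ _ R O i hR
  exact ⟨sli_EF hR i, sli_HE hR i, sli_HF hR i, sli_Z hR i, sli_e hR i, sli_h hR i⟩

end Pool.Agent.Q178.SK
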