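import Pool.Agent.Q178.SK.Sli
import Pool.Agent.Q178.SK.Alg

/-!
# JOB STA: stability of the induced module
-/

set_option autoImplicit false
set_option linter.unusedSectionVars false
set_option linter.unusedSimpArgs false

namespace Pool.Agent.Q178.SK

open Pool.Agent.Q160.SK

variable {A J C X : Type} [DecidableEq A] [Fintype A] [DecidableEq J] [DecidableEq C] [Fintype C]
  [AddCommGroup X] [Module ℚ X] {R : Dat A J} {O : Ops A J C X} {M : Submodule ℚ X}

/-- stability under the torus -/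
theorem hst (hM : Good R O M) (a : A) : ∀ x ∈ M, O.h a x ∈ M := by
  intro x hx
  have h1 := hM.span hx
  refine Submodule.iSup_induction (fun μ => M ⊓ O.W μ) (motive := fun y => O.h a y ∈ M) h1 ?_ ?_ ?_
  · intro μ y hy
    rw [hy.2 a]
    exact M.smul_mem _ hy.1
  · rw [map_zero]
    exact M.zero_mem
  · intro y z hy hz
    rw [map_add]
    exact M.add_mem hy hz

theorem mem_indM (i : J) (f : ℕ →₀ X) :
    f ∈ indM R O i M ↔ (∀ q, f q ∈ M) ∧ ∃ N : ℕ, ((ind R O i).e i ^ N) f = 0 := Iff.rfl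

theorem coef_hat (T : Module.End ℚ X) (hT : ∀ x ∈ M, T x ∈ M) (f : ℕ →₀ X) (hf : ∀ q, f q ∈ M)
    (q : ℕ) : hat T f q ∈ M := by
  rw [hat_apply]
  exact hT _ (hf q)

theorem coef_zz (f : ℕ →₀ X) (hf : ∀ q, f q ∈ M) (q : ℕ) :
    (zz : Module.End ℚ (ℕ →₀ X)) f q ∈ M := by
  rcases q with _ | q
  · rw [zz_apply_zero]; exact M.zero_mem
  · rw [zz_apply_succ]; exact hf q

theorem coef_dd (f : ℕ →₀ X) (hf : ∀ q, f q ∈ M) (q : ℕ) :
    (dd : Module.End ℚ (ℕ →₀ X)) f q ∈ M := by
  rw [dd_apply]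
  exact M.smul_mem _ (hf _)

theorem coef_Z (hM : Good R O M) (i : J) (a : A) (c : C) (f : ℕ →₀ X) (hf : ∀ q, f q ∈ M)
    (q : ℕ) : (ind R O i).Z a c f q ∈ M := by
  simp only [ind, LinearMap.sub_apply, Finsupp.sub_apply]
  refine M.sub_mem (coef_hat _ (hM.Zst a c) f hf q) ?_
  split_ifs
  · exact coef_zz _ (coef_hat _ (hM.Zst _ c) f hf) q
  · simp only [LinearMap.zero_apply, Finsupp.zero_apply]
    exact M.zero_mem

theorem coef_h (hM : Good R O M) (i : J) (a : A) (f : ℕ →₀ X) (hf : ∀ q, f q ∈ M)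
    (q : ℕ) : (ind R O i).h a f q ∈ M := by
  simp only [ind, LinearMap.add_apply, Finsupp.add_apply, LinearMap.smul_apply,
    Finsupp.smul_apply, Module.End.mul_apply]
  exact M.add_mem (coef_hat _ (hst hM a) f hf q) (M.smul_mem _ (coef_zz _ (coef_dd f hf) q))

theorem coef_e (hM : Good R O M) (i j : J) (f : ℕ →₀ X) (hf : ∀ q, f q ∈ M)
    (q : ℕ) : (ind R O i).e j f q ∈ M := by
  simp only [ind]
  split_ifs
  · simp only [LinearMap.add_apply, Finsupp.add_apply, Module.End.mul_apply]
    refine M.add_mem (M.add_mem (coef_hat _ (hM.est i) f hf q) (coef_zz _ (coef_hat _ ?_ f hf) q))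
      (coef_zz _ (coef_zz _ (coef_dd f hf)) q)
    intro x hx
    rw [LinearMap.sub_apply]
    exact M.sub_mem (hst hM _ x hx) (hst hM _ x hx)
  · exact coef_hat _ (hM.est j) f hf q

theorem sta_Z (hM : Good R O M) (i : J) (a : A) (c : C) :
    ∀ f ∈ indM R O i M, (ind R O i).Z a c f ∈ indM R O i M := by
  rintro f ⟨hf, N, hN⟩
  refine ⟨coef_Z hM i a c f hf, N + 1, ?_⟩
  have h0 := rel_eZ hM.rels i i a c
  have hx : (ind R O i).e i * (if a = R.src i then (ind R O i).Z (R.tgt i) c else 0)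
      = (if a = R.src i then (ind R O i).Z (R.tgt i) c else 0) * (ind R O i).e i := by
    split_ifs
    · have h1 := rel_eZ hM.rels i i (R.tgt i) c
      rw [if_neg (Ne.symm (R.ne i)), add_zero] at h1
      exact h1
    · rw [mul_zero, zero_mul]
  have h2 := LinearMap.congr_fun (pow_comm1 _ _ _ h0 hx N) f
  rw [Module.End.mul_apply] at h2
  rw [h2, LinearMap.add_apply, LinearMap.smul_apply, Module.End.mul_apply, Module.End.mul_apply,
    pow_succ', Module.End.mul_apply, hN]
  simp

theorem sta_e (hM : Good R O M) (i j : J) :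
    ∀ f ∈ indM R O i M, (ind R O i).e j f ∈ indM R O i M := by
  rintro f ⟨hf, N, hN⟩
  refine ⟨coef_e hM i j f hf, N + 1, ?_⟩
  by_cases hj : j = i
  · subst hj
    rw [← Module.End.mul_apply, ← pow_succ, pow_succ', Module.End.mul_apply, pow_succ',
      Module.End.mul_apply, hN]
    simp
  · have hx : (ind R O i).e i * ((ind R O i).e i * (ind R O i).e j
        - (ind R O i).e j * (ind R O i).e i)
        = ((ind R O i).e i * (ind R O i).e j - (ind R O i).e j * (ind R O i).e i)
          * (ind R O i).e i := by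
      rcases car_cases R i j (Ne.symm hj) with h | h
      · rw [rel_s0 hM.rels i i j (Ne.symm hj) h]
        simp
      · have h1 := rel_s1 hM.rels i i j (Ne.symm hj) h
        rw [mul_sub, sub_mul, ← mul_assoc, ← mul_assoc]
        rw [← sub_eq_zero]
        rw [← h1]
        module
    have h0 : (ind R O i).e i * (ind R O i).e j = (ind R O i).e j * (ind R O i).e i
        + ((ind R O i).e i * (ind R O i).e j - (ind R O i).e j * (ind R O i).e i) := by abel
    have h2 := LinearMap.congr_fun (pow_comm1 _ _ _ h0 hx N) f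
    rw [Module.End.mul_apply] at h2
    rw [h2, LinearMap.add_apply, LinearMap.smul_apply, Module.End.mul_apply, Module.End.mul_apply,
      pow_succ', Module.End.mul_apply, hN]
    simp

theorem sta_d (hM : Good R O M) (i : J) :
    ∀ f ∈ indM R O i M, (-dd : Module.End ℚ (ℕ →₀ X)) f ∈ indM R O i M := by
  rintro f ⟨hf, N, hN⟩
  refine ⟨fun q => ?_, N + 1, ?_⟩
  · rw [LinearMap.neg_apply, Finsupp.neg_apply]
    exact M.neg_mem (coef_dd f hf q)
  · have h1 := LinearMap.congr_fun (pow_comm2 _ _ _ (sli_EF hM.rels i) (sli_HE hM.rels i) N) f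
    have h3 := LinearMap.congr_fun (H_pow _ _ (sli_HE hM.rels i) N) f
    rw [Module.End.mul_apply] at h1 h3
    rw [hN, map_zero, LinearMap.add_apply, LinearMap.smul_apply, hN, smul_zero, add_zero] at h3
    rw [h1, LinearMap.add_apply, LinearMap.add_apply, LinearMap.smul_apply, LinearMap.smul_apply,
      ← h3, hN, Module.End.mul_apply, pow_succ', Module.End.mul_apply, hN]
    simp

theorem t_STA : S_STA := by
  intro A J C X _ _ _ _ _ _ _ R O M i hM
  exact ⟨sta_Z hM i, sta_e hM i, sta_d hM i⟩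

end Pool.Agent.Q178.SK
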