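import Pool.Agent.Q178.SK.Sta
import Pool.Agent.Q178.SK.Sl2

/-!
# JOB STR: strings of the induced module, symmetry of the dimensions
-/

set_option autoImplicit false
set_option linter.unusedSectionVars false
set_option linter.unusedSimpArgs false

namespace Pool.Agent.Q178.SK

open Pool.Agent.Q160.SK

variable {A J C X : Type} [DecidableEq A] [Fintype A] [DecidableEq J] [DecidableEq C] [Fintype C]
  [AddCommGroup X] [Module ℚ X] {R : Dat A J} {O : Ops A J C X} {M : Submodule ℚ X}

theorem e_mem_W {Y : Type} [AddCommGroup Y] [Module ℚ Y] {O : Ops A J C Y} (hR : Rels R O) (j : J)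
    (μ : A → ℤ) (y : Y) (hy : y ∈ O.W μ) : O.e j y ∈ O.W (μ + R.al j) := by
  intro a
  rw [he_ap hR a j y, hy a, map_smul, ← add_smul, Pi.add_apply]
  push_cast
  rfl

theorem d_mem_W (hR : Rels R O) (i : J) (μ : A → ℤ) (f : ℕ →₀ X)
    (hf : f ∈ (ind R O i).W μ) : (-dd : Module.End ℚ (ℕ →₀ X)) f ∈ (ind R O i).W (μ - R.al i) := by
  intro a
  have h1 := LinearMap.congr_fun (sli_h hR i a) f
  simp only [Module.End.mul_apply, LinearMap.sub_apply, LinearMap.smul_apply] at h1
  rw [h1, hf a, map_smul, ← sub_smul, Pi.sub_apply]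
  push_cast
  rfl

theorem dd_pow_nil (f : ℕ →₀ X) : ∃ N : ℕ, ((-dd : Module.End ℚ (ℕ →₀ X)) ^ N) f = 0 := by
  induction f using Finsupp.induction_linear with
  | zero => exact ⟨0, by simp⟩
  | add f g hf hg =>
    obtain ⟨N, hN⟩ := hf
    obtain ⟨K, hK⟩ := hg
    refine ⟨N + K, ?_⟩
    rw [map_add]
    have h1 : ((-dd : Module.End ℚ (ℕ →₀ X)) ^ (N + K)) f = 0 := by
      rw [add_comm, pow_add, Module.End.mul_apply, hN, map_zero]
    have h2 : ((-dd : Module.End ℚ (ℕ →₀ X)) ^ (N + K)) g = 0 := by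
      rw [pow_add, Module.End.mul_apply, hK, map_zero]
    rw [h1, h2, add_zero]
  | single q x =>
    refine ⟨q + 1, ?_⟩
    induction q generalizing x with
    | zero => rw [zero_add, pow_one, LinearMap.neg_apply, dd_single]; simp
    | succ q ih =>
      rw [pow_succ, Module.End.mul_apply, LinearMap.neg_apply, dd_single, Nat.add_sub_cancel,
        map_neg, map_smul, ih]
      simp

theorem t_STR : S_STR := by
  intro A J C X _ _ _ _ _ _ _ R O M i hM μ
  refine
    { EF := sli_EF hM.rels i
      HE := sli_HE hM.rels i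
      HF := sli_HF hM.rels i
      hE := ?_
      hF := ?_
      hH := ?_
      nE := ?_
      nF := ?_ }
  · intro n x hx
    refine ⟨sta_e hM i i x hx.1, ?_⟩
    have h1 := e_mem_W (rel_all hM.rels i) i _ x hx.2
    rw [show μ + (n + 1) • R.al i = μ + n • R.al i + R.al i by rw [add_smul, one_smul, add_assoc]]
    exact h1
  · intro n x hx
    refine ⟨sta_d hM i x hx.1, ?_⟩
    have h1 := d_mem_W hM.rels i _ x hx.2
    rw [show μ + (n - 1) • R.al i = μ + n • R.al i - R.al i by rw [sub_smul, one_smul]; abel]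
    exact h1
  · intro n x hx
    rw [LinearMap.sub_apply, hx.2 (R.tgt i), hx.2 (R.src i), ← sub_smul]
    congr 1
    simp only [Pi.add_apply, Pi.smul_apply, al_tgt, al_src, smul_eq_mul]
    push_cast
    ring
  · intro n x hx
    exact hx.1.2
  · intro n x hx
    exact dd_pow_nil x

theorem sw_eq (R : Dat A J) (i : J) (μ : A → ℤ) :
    μ + (-(μ (R.tgt i) - μ (R.src i))) • R.al i = fun a => μ (R.sw i a) := by
  funext a
  simp only [Pi.add_apply, Pi.smul_apply, smul_eq_mul, Dat.sw]
  by_cases h1 : a = R.tgt i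
  · subst h1
    rw [Equiv.swap_apply_right, al_tgt]
    ring
  · by_cases h2 : a = R.src i
    · subst h2
      rw [Equiv.swap_apply_left, al_src]
      ring
    · rw [Equiv.swap_apply_of_ne_of_ne h2 h1, al_of_ne R i a h1 h2]
      ring

theorem t_SYM (h6 : S_FIN) : S_SYM := by
  intro A J C X _ _ _ _ _ _ _ R O M i hM
  obtain ⟨hfin, -, c, hc⟩ := h6 A J C X R O M i hM
  have hsym : ∀ μ : A → ℤ, (ind R O i).dm (indM R O i M) (fun a => μ (R.sw i a))
      = (ind R O i).dm (indM R O i M) μ := by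
    intro μ
    have h1 := t_STR A J C X R O M i hM μ
    have h2 := t_SLF _ _ _ _ _ _ h1 (fun n => hfin _) 0
    rw [zero_smul, add_zero, sub_zero, sw_eq] at h2
    exact h2.symm
  refine ⟨hsym, c, ?_⟩
  intro μ hμ a
  by_cases ha : a = R.src i
  · subst ha
    have h2 : indM R O i M ⊓ (ind R O i).W (fun a => μ (R.sw i a)) ≠ ⊥ := by
      intro h3
      apply hμ
      have h4 : (ind R O i).dm (indM R O i M) (fun a => μ (R.sw i a)) = 0 := by
        unfold Ops.dm
        rw [h3]
        simp
      rw [hsym μ] at h4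
      haveI := hfin μ
      exact Submodule.finrank_eq_zero.mp h4
    have h3 := hc _ h2 (R.tgt i) (Ne.symm (R.ne i))
    simp only [Dat.sw, Equiv.swap_apply_right] at h3
    exact h3
  · exact hc μ hμ a ha

end Pool.Agent.Q178.SK
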